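import Pool.Agent.TH42.NC.Pack

set_option autoImplicit false

namespace Pool.Agent.TH42.NC

open Finset

/-- `x` has no common factor -/
def Prim {n : ℕ} (x : Fin n → ℤ) : Prop := Finset.univ.gcd x = 1

theorem prim_not_dvd {n : ℕ} {x : Fin n → ℤ} (hx : Prim x) {p : ℕ} (hp : p.Prime) :
    ∃ i, ¬ (p : ℤ) ∣ x i := by
  by_contra h
  push Not at h
  have h1 : (p : ℤ) ∣ Finset.univ.gcd x := Finset.dvd_gcd fun i _ => h i
  rw [hx] at h1
  have h2 := Int.eq_one_of_dvd_one (by positivity) h1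
  have := hp.one_lt
  have h3 : p = 1 := by exact_mod_cast h2
  omega

/-- strict normal crossings condition over `R` -/
def SNCR {n q : ℕ} (F : Fin q → MvPolynomial (Fin n) ℤ) (R : Type) [Field R] : Prop :=
  ∀ z : Fin n → R, z ≠ 0 →
    LinearIndependent R (fun j : {j : Fin q // MvPolynomial.aeval z (F j) = 0} =>
      fun i => MvPolynomial.aeval z (MvPolynomial.pderiv i (F j.1)))

section

variable {n q : ℕ}

theorem eval_map' {R : Type} [CommRing R] (G : MvPolynomial (Fin n) ℤ) (z : Fin n → R) :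
    MvPolynomial.eval z (G.map (Int.castRingHom R)) = MvPolynomial.aeval z G := by
  rw [MvPolynomial.eval_map, MvPolynomial.aeval_def]
  rfl

theorem snc_of {R : Type} [NontriviallyNormedField R] (F : Fin q → MvPolynomial (Fin n) ℤ)
    (h : SNCR F R) (z : Fin n → R) (hz : z ≠ 0) :
    SNC (fun j => (F j).map (Int.castRingHom R)) z := by
  have h1 := h z hz
  unfold SNC
  have h2 : ∀ j, MvPolynomial.eval z ((F j).map (Int.castRingHom R)) =
      MvPolynomial.aeval z (F j) := fun j => eval_map' _ _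
  have h3 : ∀ j i, MvPolynomial.eval z
      (MvPolynomial.pderiv i ((F j).map (Int.castRingHom R))) =
      MvPolynomial.aeval z (MvPolynomial.pderiv i (F j)) := by
    intro j i
    rw [MvPolynomial.pderiv_map, eval_map']
  simp only [h3]
  have e : {j : Fin q // MvPolynomial.eval z ((F j).map (Int.castRingHom R)) = 0} ≃
      {j : Fin q // MvPolynomial.aeval z (F j) = 0} :=
    Equiv.subtypeEquivRight fun j => by rw [h2 j]
  refine (linearIndependent_equiv' (Equiv.subtypeEquivRight fun j => by rw [h2 j]) ?_).mpr h1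
  rfl

theorem aeval_int {R : Type} [CommRing R] (G : MvPolynomial (Fin n) ℤ) (x : Fin n → ℤ) :
    MvPolynomial.aeval (fun i => (x i : R)) G = ((MvPolynomial.eval x G : ℤ) : R) := by
  have h := MvPolynomial.eval₂_comp (Int.castRingHom R) x G
  rw [MvPolynomial.aeval_def]
  have h2 : ((MvPolynomial.eval x G : ℤ) : R) = (Int.castRingHom R) (MvPolynomial.eval x G) := rfl
  rw [h2, h]
  rfl

theorem aeval_smul_hom {R : Type} [CommRing R] (G : MvPolynomial (Fin n) ℤ) {d : ℕ}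
    (hG : G.IsHomogeneous d) (r : R) (z : Fin n → R) :
    MvPolynomial.aeval (fun i => r * z i) G = r ^ d * MvPolynomial.aeval z G := by
  rw [MvPolynomial.aeval_def, MvPolynomial.aeval_def, MvPolynomial.eval₂_eq', MvPolynomial.eval₂_eq',
    Finset.mul_sum]
  refine Finset.sum_congr rfl fun m hm => ?_
  have h1 : m.sum (fun _ e => e) = d := by
    have := hG (MvPolynomial.mem_support_iff.mp hm)
    simpa [Finsupp.weight_apply] using this
  have h2 : ∑ i, m i = d := by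
    rw [← h1, Finsupp.sum_fintype _ _ (fun _ => rfl)]
  simp only [mul_pow]
  rw [Finset.prod_mul_distrib, Finset.prod_pow_eq_pow_sum, h2]
  ring

end

/-- the `p`-adic count -/
theorem padic_count {n q : ℕ} (F : Fin q → MvPolynomial (Fin n) ℤ) (p : ℕ) [hp : Fact p.Prime]
    (hS : SNCR F ℚ_[p]) : ∃ C : ℝ, 0 ≤ C ∧ ∀ (A : Fin q → ℕ) (a : ℕ), (∀ j, A j ≤ a) →
      ∀ X : Finset (Fin n → ℤ), (∀ x ∈ X, Prim x ∧ ∀ j, (p : ℤ) ^ A j ∣ MvPolynomial.eval x (F j)) →
        (∀ x ∈ X, ∀ x' ∈ X, x ≠ x' → ∃ i, ¬ (p : ℤ) ^ a ∣ x i - x' i) →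
        (X.card : ℝ) ≤ C * (((p : ℝ) ^ a) ^ n / ∏ j, (p : ℝ) ^ A j) := by
  classical
  have hp1 : (1 : ℝ) < p := by exact_mod_cast hp.out.one_lt
  have hp0 : (0 : ℝ) < p := by linarith
  obtain ⟨C, hC, hb⟩ := compact_bd (𝕜 := ℚ_[p]) (C0 := p) hp1.le (packs_padic p)
    (fun j => (F j).map (Int.castRingHom ℚ_[p])) 1 le_rfl (Metric.sphere 0 1)
    (isCompact_sphere _ _) (fun z hz => snc_of F hS z (by
      rintro rfl
      simp at hz))
  refine ⟨C, hC, ?_⟩
  intro A a hA X hX hsep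
  have hinj : Function.Injective (fun (x : Fin n → ℤ) => fun i => (x i : ℚ_[p])) := by
    intro x y h
    ext i
    have h2 : (x i : ℚ_[p]) = y i := congrFun h i
    exact_mod_cast h2
  have h1 := hb (fun j => ((p : ℝ) ^ A j)⁻¹) ((p : ℝ) ^ a)⁻¹ (by positivity)
    (inv_le_one_of_one_le₀ (one_le_pow₀ hp1.le)) (fun j => by
      apply inv_anti₀ (by positivity)
      exact pow_le_pow_right₀ hp1.le (hA j))
    (X.image (fun (x : Fin n → ℤ) => fun i => (x i : ℚ_[p]))) (by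
      intro z hz
      obtain ⟨x, hx, rfl⟩ := Finset.mem_image.mp hz
      obtain ⟨hprim, hdvd⟩ := hX x hx
      constructor
      · rw [mem_sphere_zero_iff_norm]
        apply le_antisymm
        · rw [pi_norm_le_iff_of_nonneg zero_le_one]
          intro i
          exact Padic.norm_int_le_one _
        · obtain ⟨i, hi⟩ := prim_not_dvd hprim hp.out
          have h2 : ‖((x i : ℤ) : ℚ_[p])‖ = 1 := by
            apply le_antisymm (Padic.norm_int_le_one _)
            by_contra hlt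
            push Not at hlt
            exact hi (Padic.norm_intCast_lt_one_iff.mp hlt)
          rw [← h2]
          exact norm_le_pi_norm (fun i => (x i : ℚ_[p])) i
      · intro j
        rw [eval_map', aeval_int, one_mul]
        have h2 := (Padic.norm_int_le_pow_iff_dvd (p := p) (MvPolynomial.eval x (F j)) (A j)).mpr
          (by exact_mod_cast hdvd j)
        rwa [zpow_neg, zpow_natCast] at h2) (by
      intro z hz z' hz' hne
      obtain ⟨x, hx, rfl⟩ := Finset.mem_image.mp hz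
      obtain ⟨x', hx', rfl⟩ := Finset.mem_image.mp hz'
      have hxx : x ≠ x' := by rintro rfl; exact hne rfl
      obtain ⟨i, hi⟩ := hsep x hx x' hx' hxx
      have h2 : ¬ ‖((x i - x' i : ℤ) : ℚ_[p])‖ ≤ (p : ℝ) ^ (-(a : ℤ)) := by
        rw [Padic.norm_int_le_pow_iff_dvd]
        exact_mod_cast hi
      push Not at h2
      rw [zpow_neg, zpow_natCast] at h2
      refine h2.le.trans ?_
      have h3 := norm_le_pi_norm ((fun i => (x i : ℚ_[p])) - (fun i => (x' i : ℚ_[p]))) i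
      simpa using h3)
  rw [Finset.card_image_of_injective _ hinj] at h1
  refine h1.trans (le_of_eq ?_)
  rw [Finset.prod_inv_distrib, inv_pow, div_inv_eq_mul, mul_comm (∏ j, (p : ℝ) ^ A j)⁻¹,
    ← div_eq_mul_inv]

/-- the archimedean count -/
theorem arch_count {n q : ℕ} (F : Fin q → MvPolynomial (Fin n) ℤ) (d : Fin q → ℕ)
    (hF : ∀ j, (F j).IsHomogeneous (d j)) (hS : SNCR F ℝ) (c : ℝ) (hc : 1 ≤ c) :
    ∃ C : ℝ, 0 ≤ C ∧ ∀ (B : ℝ) (e : Fin q → ℝ) (M : ℕ), 1 ≤ M → (M : ℝ) ≤ B →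
      (∀ j, (M : ℝ) ≤ B * e j) → ∀ X : Finset (Fin n → ℤ),
        (∀ x ∈ X, (∀ i, |(x i : ℝ)| ≤ B) ∧ (∃ i, B / 2 ≤ |(x i : ℝ)|) ∧
          ∀ j, |((MvPolynomial.eval x (F j) : ℤ) : ℝ)| ≤ c * e j * B ^ d j) →
        (∀ x ∈ X, ∀ x' ∈ X, ∀ i, (M : ℤ) ∣ x i - x' i) →
        (X.card : ℝ) ≤ C * ((∏ j, e j) * (B / M) ^ n) := by
  classical
  have hKc : IsCompact ({z : Fin n → ℝ | 1 / 2 ≤ ‖z‖} ∩ Metric.closedBall 0 1) := by
    apply (isCompact_closedBall _ _).inter_left
    exact isClosed_le continuous_const continuous_norm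
  obtain ⟨C, hC, hb⟩ := compact_bd (𝕜 := ℝ) (C0 := 5) (by norm_num) packs_real
    (fun j => (F j).map (Int.castRingHom ℝ)) c hc _ hKc (fun z hz => snc_of F hS z (by
      rintro rfl
      have h1 : (1 : ℝ) / 2 ≤ ‖(0 : Fin n → ℝ)‖ := hz.1
      rw [norm_zero] at h1
      norm_num at h1))
  refine ⟨C, hC, ?_⟩
  intro B e M hM hMB hMe X hX hcong
  have hM1 : (1 : ℝ) ≤ M := by exact_mod_cast hM
  have hM0 : (0 : ℝ) < M := by linarith
  have hB0 : 0 < B := by linarith
  have hinj : Function.Injective (fun (x : Fin n → ℤ) => fun i => (x i : ℝ) / B) := by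
    intro x y h
    ext i
    have h1 := congrFun h i
    have h2 : (x i : ℝ) = y i := by
      field_simp at h1
      exact h1
    exact_mod_cast h2
  have h1 := hb e (M / B) (by positivity) ((div_le_one hB0).mpr hMB) (fun j => by
      rw [div_le_iff₀ hB0]
      linarith [hMe j])
    (X.image (fun (x : Fin n → ℤ) => fun i => (x i : ℝ) / B)) (by
      intro z hz
      obtain ⟨x, hx, rfl⟩ := Finset.mem_image.mp hz
      obtain ⟨hx1, ⟨i0, hx2⟩, hx3⟩ := hX x hx
      refine ⟨⟨?_, ?_⟩, ?_⟩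
      · show (1 : ℝ) / 2 ≤ ‖fun i => (x i : ℝ) / B‖
        refine le_trans ?_ (norm_le_pi_norm (fun i => (x i : ℝ) / B) i0)
        rw [Real.norm_eq_abs, abs_div, abs_of_pos hB0, le_div_iff₀ hB0]
        linarith
      · rw [mem_closedBall_zero_iff, pi_norm_le_iff_of_nonneg zero_le_one]
        intro i
        rw [Real.norm_eq_abs, abs_div, abs_of_pos hB0, div_le_one hB0]
        exact hx1 i
      · intro j
        rw [eval_map']
        have h2 := aeval_smul_hom (F j) (hF j) B (fun i => (x i : ℝ) / B)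
        have h3 : (fun i => B * ((x i : ℝ) / B)) = fun i => (x i : ℝ) := by
          ext i; field_simp
        rw [h3, aeval_int] at h2
        have h4 := hx3 j
        rw [h2, abs_mul, abs_of_pos (by positivity : (0 : ℝ) < B ^ d j)] at h4
        rw [Real.norm_eq_abs]
        have h5 : 0 < B ^ d j := by positivity
        rw [mul_comm (c * e j)] at h4
        exact le_of_mul_le_mul_left h4 h5) (by
      intro z hz z' hz' hne
      obtain ⟨x, hx, rfl⟩ := Finset.mem_image.mp hz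
      obtain ⟨x', hx', rfl⟩ := Finset.mem_image.mp hz'
      have hxx : x ≠ x' := by rintro rfl; exact hne rfl
      obtain ⟨i, hi⟩ := Function.ne_iff.mp hxx
      have h2 := hcong x hx x' hx' i
      have h3 : (M : ℤ) ≤ |x i - x' i| := by
        apply Int.le_of_dvd (abs_pos.mpr (sub_ne_zero.mpr hi))
        exact (dvd_abs _ _).mpr h2
      have h4 : (M : ℝ) ≤ |(x i : ℝ) - x' i| := by exact_mod_cast h3
      refine le_trans ?_ (norm_le_pi_norm ((fun i => (x i : ℝ) / B) - fun i => (x' i : ℝ) / B) i)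
      rw [Pi.sub_apply, Real.norm_eq_abs, ← sub_div, abs_div, abs_of_pos hB0]
      exact div_le_div_of_nonneg_right h4 hB0.le)
  rw [Finset.card_image_of_injective _ hinj] at h1
  refine h1.trans (le_of_eq ?_)
  rw [div_pow, div_pow]
  field_simp

/-- representatives of the values of a map -/
theorem exists_reps {α β : Type*} [DecidableEq α] [DecidableEq β] (f : α → β) (X : Finset α) :
    ∃ T ⊆ X, T.card = (X.image f).card ∧ ∀ x ∈ T, ∀ x' ∈ T, f x = f x' → x = x' := by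
  classical
  have h : ∀ b ∈ X.image f, ∃ x, x ∈ X ∧ f x = b := fun b hb => by
    obtain ⟨x, hx, hxb⟩ := Finset.mem_image.mp hb
    exact ⟨x, hx, hxb⟩
  rcases X.eq_empty_or_nonempty with hXe | ⟨x0, hx0⟩
  · subst hXe
    exact ⟨∅, by simp, by simp, by simp⟩
  have : Nonempty α := ⟨x0⟩
  choose! g hg using h
  refine ⟨(X.image f).image g, ?_, ?_, ?_⟩
  · intro x hx
    obtain ⟨b, hb, rfl⟩ := Finset.mem_image.mp hx
    exact (hg b hb).1
  · apply Finset.card_image_of_injOn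
    intro b hb b' hb' h
    have h1 := (hg b hb).2
    have h2 := (hg b' hb').2
    rw [← h1, ← h2, h]
  · intro x hx x' hx' h
    obtain ⟨b, hb, rfl⟩ := Finset.mem_image.mp hx
    obtain ⟨b', hb', rfl⟩ := Finset.mem_image.mp hx'
    rw [(hg b hb).2, (hg b' hb').2] at h
    rw [h]

theorem count {n q : ℕ} (F : Fin q → MvPolynomial (Fin n) ℤ) (d : Fin q → ℕ)
    (hF : ∀ j, (F j).IsHomogeneous (d j)) (S : Finset ℕ) (hSp : ∀ p ∈ S, p.Prime)
    (hR : SNCR F ℝ) (hQ : ∀ p ∈ S, ∀ [Fact p.Prime], SNCR F ℚ_[p]) (c : ℝ) (hc : 1 ≤ c) :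
    ∃ C : ℝ, 0 ≤ C ∧ ∀ (B : ℝ) (e : Fin q → ℝ) (a : ℕ → ℕ) (A : Fin q → ℕ → ℕ),
      (∀ j, 0 < e j) → (∀ p ∈ S, ∀ j, A j p ≤ a p) → ((∏ p ∈ S, p ^ a p : ℕ) : ℝ) ≤ B →
      (∀ j, ((∏ p ∈ S, p ^ a p : ℕ) : ℝ) ≤ B * e j) → ∀ X : Finset (Fin n → ℤ),
        (∀ x ∈ X, Prim x ∧ (∀ i, |(x i : ℝ)| ≤ B) ∧ (∃ i, B / 2 ≤ |(x i : ℝ)|) ∧
          (∀ j, |((MvPolynomial.eval x (F j) : ℤ) : ℝ)| ≤ c * e j * B ^ d j) ∧
          ∀ p ∈ S, ∀ j, (p : ℤ) ^ A j p ∣ MvPolynomial.eval x (F j)) →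
        (X.card : ℝ) ≤ C * ((∏ j, e j) * B ^ n / ∏ p ∈ S, ∏ j, (p : ℝ) ^ A j p) := by
  classical
  obtain ⟨C1, hC1, hb1⟩ := arch_count F d hF hR c hc
  have h2 : ∀ p : {p // p ∈ S}, ∃ C : ℝ, 0 ≤ C ∧ ∀ (A : Fin q → ℕ) (a : ℕ), (∀ j, A j ≤ a) →
      ∀ X : Finset (Fin n → ℤ),
        (∀ x ∈ X, Prim x ∧ ∀ j, (p.1 : ℤ) ^ A j ∣ MvPolynomial.eval x (F j)) →
        (∀ x ∈ X, ∀ x' ∈ X, x ≠ x' → ∃ i, ¬ (p.1 : ℤ) ^ a ∣ x i - x' i) →
        (X.card : ℝ) ≤ C * (((p.1 : ℝ) ^ a) ^ n / ∏ j, (p.1 : ℝ) ^ A j) := by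
    intro p
    have : Fact p.1.Prime := ⟨hSp p.1 p.2⟩
    exact padic_count F p.1 (hQ p.1 p.2)
  choose C2 hC2 hb2 using h2
  have hprod : 0 ≤ ∏ p, C2 p := Finset.prod_nonneg fun p _ => hC2 p
  refine ⟨C1 * ∏ p, C2 p, by positivity, ?_⟩
  intro B e a A he hAa hMB hMe X hX
  set M : ℕ := ∏ p ∈ S, p ^ a p with hM
  have hM1 : 1 ≤ M := Nat.one_le_iff_ne_zero.mpr
    (Finset.prod_ne_zero_iff.mpr fun p hp => pow_ne_zero _ (hSp p hp).ne_zero)
  have hMR : (1 : ℝ) ≤ M := by exact_mod_cast hM1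
  have hM0 : (0 : ℝ) < M := by linarith
  have hB0 : 0 < B := by linarith
  let r : (Fin n → ℤ) → (p : {p // p ∈ S}) → (Fin n → ZMod (p.1 ^ a p.1)) :=
    fun x p i => (x i : ZMod (p.1 ^ a p.1))
  -- number of classes modulo one prime power
  have hcl : ∀ p : {p // p ∈ S}, (((X.image (fun x => r x p)).card : ℕ) : ℝ) ≤
      C2 p * (((p.1 : ℝ) ^ a p.1) ^ n / ∏ j, (p.1 : ℝ) ^ A j p.1) := by
    intro p
    obtain ⟨T, hTX, hTc, hTi⟩ := exists_reps (fun x => r x p) X
    rw [← hTc]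
    apply hb2 p (fun j => A j p.1) (a p.1) (fun j => hAa p.1 p.2 j) T
    · intro x hx
      obtain ⟨h1, _, _, _, h5⟩ := hX x (hTX hx)
      exact ⟨h1, fun j => h5 p.1 p.2 j⟩
    · intro x hx x' hx' hne
      by_contra hcon
      push Not at hcon
      apply hne
      apply hTi x hx x' hx'
      ext i
      have h3 := hcon i
      show (x i : ZMod (p.1 ^ a p.1)) = (x' i : ZMod (p.1 ^ a p.1))
      rw [← sub_eq_zero, ← Int.cast_sub, ZMod.intCast_zmod_eq_zero_iff_dvd]
      exact_mod_cast h3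
  have hcls : (((X.image r).card : ℕ) : ℝ) ≤ (∏ p, C2 p) *
      ((M : ℝ) ^ n / ∏ p ∈ S, ∏ j, (p : ℝ) ^ A j p) := by
    have h1 : (X.image r).card ≤ ∏ p : {p // p ∈ S}, (X.image (fun x => r x p)).card := by
      rw [← Fintype.card_piFinset]
      apply Finset.card_le_card
      intro b hb
      obtain ⟨x, hx, rfl⟩ := Finset.mem_image.mp hb
      rw [Fintype.mem_piFinset]
      intro p
      exact Finset.mem_image.mpr ⟨x, hx, rfl⟩
    calc (((X.image r).card : ℕ) : ℝ) ≤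
          ((∏ p : {p // p ∈ S}, (X.image (fun x => r x p)).card : ℕ) : ℝ) := by exact_mod_cast h1
      _ = ∏ p : {p // p ∈ S}, (((X.image (fun x => r x p)).card : ℕ) : ℝ) := by push_cast; rfl
      _ ≤ ∏ p : {p // p ∈ S}, (C2 p * (((p.1 : ℝ) ^ a p.1) ^ n / ∏ j, (p.1 : ℝ) ^ A j p.1)) :=
        Finset.prod_le_prod (fun _ _ => by positivity) (fun p _ => hcl p)
      _ = (∏ p, C2 p) * ∏ p : {p // p ∈ S}, (((p.1 : ℝ) ^ a p.1) ^ n / ∏ j, (p.1 : ℝ) ^ A j p.1) :=
        Finset.prod_mul_distrib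
      _ = _ := by
        congr 1
        rw [Finset.prod_div_distrib]
        congr 1
        · rw [hM, Finset.prod_pow]
          push_cast
          rw [← Finset.prod_coe_sort S (fun p => (p : ℝ) ^ a p)]
        · rw [← Finset.prod_coe_sort S (fun p => ∏ j, (p : ℝ) ^ A j p)]
  -- the fibres
  have hfib : ∀ b ∈ X.image r, (((X.filter (fun x => r x = b)).card : ℕ) : ℝ) ≤
      C1 * ((∏ j, e j) * (B / M) ^ n) := by
    intro b _
    apply hb1 B e M hM1 hMB hMe
    · intro x hx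
      obtain ⟨_, h2, h3, h4, _⟩ := hX x (Finset.mem_filter.mp hx).1
      exact ⟨h2, h3, h4⟩
    · intro x hx x' hx' i
      have h1 := (Finset.mem_filter.mp hx).2
      have h2 := (Finset.mem_filter.mp hx').2
      rw [hM]
      push_cast
      apply Finset.prod_dvd_of_coprime
      · intro p hp p' hp' hne
        have h3 : Nat.Coprime (p ^ a p) (p' ^ a p') :=
          Nat.Coprime.pow _ _ ((Nat.coprime_primes (hSp p hp) (hSp p' hp')).mpr hne)
        have h4 := Nat.isCoprime_iff_coprime.mpr h3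
        simp only [Function.onFun]
        exact_mod_cast h4
      · intro p hp
        have h3 : (x i : ZMod (p ^ a p)) = (x' i : ZMod (p ^ a p)) := by
          have h4 := congrFun (congrFun (h1.trans h2.symm) ⟨p, hp⟩) i
          exact h4
        rw [← sub_eq_zero, ← Int.cast_sub, ZMod.intCast_zmod_eq_zero_iff_dvd] at h3
        exact_mod_cast h3
  have hsum : (X.card : ℝ) ≤ ((X.image r).card : ℝ) * (C1 * ((∏ j, e j) * (B / M) ^ n)) := by
    rw [Finset.card_eq_sum_card_image r X]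
    push_cast
    calc ∑ b ∈ X.image r, (((X.filter (fun x => r x = b)).card : ℕ) : ℝ) ≤
          ∑ _b ∈ X.image r, C1 * ((∏ j, e j) * (B / M) ^ n) := Finset.sum_le_sum hfib
      _ = _ := by rw [Finset.sum_const, nsmul_eq_mul]
  have hepos : 0 ≤ ∏ j, e j := Finset.prod_nonneg fun j _ => (he j).le
  refine hsum.trans ?_
  refine (mul_le_mul_of_nonneg_right hcls (by positivity)).trans (le_of_eq ?_)
  have hAne : (∏ p ∈ S, ∏ j, (p : ℝ) ^ A j p) ≠ 0 := by
    refine Finset.prod_ne_zero_iff.mpr fun p hp => Finset.prod_ne_zero_iff.mpr fun j _ => ?_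
    have : (p : ℝ) ≠ 0 := by exact_mod_cast (hSp p hp).ne_zero
    positivity
  rw [div_pow]
  field_simp

end Pool.Agent.TH42.NC
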