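import Pool.Agent.TH42.NC.Count

set_option autoImplicit false

namespace Pool.Agent.TH42.NC

open Finset

/-- lowering a vector of natural numbers to a given sum -/
theorem exists_lower {ι : Type*} [Fintype ι] (s : ℕ) : ∀ (D : ℕ) (k : ι → ℕ),
    ∑ i, k i = s + D → ∃ k' : ι → ℕ, (∀ i, k' i ≤ k i) ∧ ∑ i, k' i = s := by
  classical
  intro D
  induction D with
  | zero => intro k hk; exact ⟨k, fun _ => le_rfl, by simpa using hk⟩
  | succ D ih =>
    intro k hk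
    have h1 : ∃ i, 0 < k i := by
      by_contra h
      push Not at h
      have h2 : ∑ i, k i = 0 := Finset.sum_eq_zero fun i _ => Nat.le_zero.mp (h i)
      omega
    obtain ⟨i0, hi0⟩ := h1
    have h2 : ∑ i, (Function.update k i0 (k i0 - 1)) i = s + D := by
      have h3 := Finset.sum_update_of_mem (Finset.mem_univ i0) k (k i0 - 1)
      have h4 := Finset.sum_eq_add_sum_sdiff_singleton_of_mem (Finset.mem_univ i0) k
      rw [h3]
      omega
    obtain ⟨k', hk1, hk2⟩ := ih _ h2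
    refine ⟨k', fun i => (hk1 i).trans ?_, hk2⟩
    by_cases hi : i = i0
    · subst hi
      rw [Function.update_self]
      omega
    · rw [Function.update_of_ne hi]

theorem exists_lower' {ι : Type*} [Fintype ι] (s : ℕ) (k : ι → ℕ) :
    ∃ k' : ι → ℕ, (∀ i, k' i ≤ k i) ∧ ∑ i, k' i = min s (∑ i, k i) := by
  by_cases h : s ≤ ∑ i, k i
  · obtain ⟨k', h1, h2⟩ := exists_lower s (∑ i, k i - s) k (by omega)
    exact ⟨k', h1, by rw [h2, min_eq_left h]⟩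
  · exact ⟨k, fun _ => le_rfl, by rw [min_eq_right (by omega)]⟩

section

variable {n q : ℕ}

theorem class_count (F : Fin q → MvPolynomial (Fin n) ℤ) (d : Fin q → ℕ)
    (hF : ∀ j, (F j).IsHomogeneous (d j)) (S : Finset ℕ) (hSp : ∀ p ∈ S, p.Prime)
    (hR : SNCR F ℝ) (hQ : ∀ p ∈ S, ∀ [Fact p.Prime], SNCR F ℚ_[p]) (c : ℝ) (hc : 1 ≤ c) :
    ∃ C : ℝ, 0 ≤ C ∧ ∀ (B : ℝ) (K : ℕ) (k1 : Fin q → ℕ) (k2 : Fin q → {p // p ∈ S} → ℕ),
      1 ≤ B → 1 ≤ K → ∑ j, (k1 j + ∑ p, k2 j p) ≤ K → ∀ X : Finset (Fin n → ℤ),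
        (∀ x ∈ X, Prim x ∧ (∀ i, |(x i : ℝ)| ≤ B) ∧ (∃ i, B / 2 ≤ |(x i : ℝ)|) ∧
          (∀ j, MvPolynomial.eval x (F j) ≠ 0) ∧
          (∀ j, |((MvPolynomial.eval x (F j) : ℤ) : ℝ)| ≤
            c * B ^ (-((k1 j : ℝ) / K)) * B ^ d j) ∧
          ∀ p : {p // p ∈ S}, ∀ j, B ^ ((k2 j p : ℝ) / K) ≤
            (p.1 : ℝ) ^ padicValInt p.1 (MvPolynomial.eval x (F j))) →
        (X.card : ℝ) ≤ C * B ^ ((n : ℝ) - ((∑ j, (k1 j + ∑ p, k2 j p) : ℕ) : ℝ) / K) := by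
  classical
  obtain ⟨C, hC, hb⟩ := count F d hF S hSp hR hQ c hc
  have hP1 : (1 : ℝ) ≤ ∏ p : {p // p ∈ S}, ∏ _j : Fin q, (p.1 : ℝ) := by
    have h1 : ∀ p : {p // p ∈ S}, (1 : ℝ) ≤ p.1 := fun p => by
      exact_mod_cast (hSp p.1 p.2).one_le
    have h2 : (1 : ℝ) = ∏ p : {p // p ∈ S}, ∏ _j : Fin q, (1 : ℝ) := by simp
    rw [h2]
    exact Finset.prod_le_prod (fun _ _ => by positivity) fun p _ =>
      Finset.prod_le_prod (fun _ _ => by positivity) fun j _ => h1 p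
  refine ⟨C * ∏ p : {p // p ∈ S}, ∏ _j : Fin q, (p.1 : ℝ), by positivity, ?_⟩
  intro B K k1 k2 hB hK hsum X hX
  have hB0 : 0 < B := by linarith
  have hKR : (1 : ℝ) ≤ K := by exact_mod_cast hK
  have hK0 : (0 : ℝ) < K := by linarith
  have hA : ∀ (j : Fin q) (p : {p // p ∈ S}), ∃ A : ℕ, (p.1 : ℝ) ^ A ≤ B ^ ((k2 j p : ℝ) / K) ∧
      B ^ ((k2 j p : ℝ) / K) < (p.1 : ℝ) ^ (A + 1) := by
    intro j p
    apply exists_nat_pow_near
    · exact Real.one_le_rpow hB (by positivity)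
    · exact_mod_cast (hSp p.1 p.2).one_lt
  choose A0 hA1 hA2 using hA
  have hAe : ∀ (j : Fin q) (p : {p // p ∈ S}),
      (if hp : p.1 ∈ S then A0 j ⟨p.1, hp⟩ else 0) = A0 j p := by
    intro j p
    rw [dif_pos p.2]
  have hMle : ((∏ p ∈ S, p ^ (∑ j, if hp : p ∈ S then A0 j ⟨p, hp⟩ else 0) : ℕ) : ℝ) ≤
      B ^ (∑ j, ∑ p, ((k2 j p : ℝ) / K)) := by
    push_cast
    rw [← Finset.prod_coe_sort S
      (fun p => (p : ℝ) ^ (∑ j, if hp : p ∈ S then A0 j ⟨p, hp⟩ else 0))]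
    have h1 : ∀ p : {p // p ∈ S}, (p.1 : ℝ) ^ (∑ j, if hp : p.1 ∈ S then A0 j ⟨p.1, hp⟩ else 0) =
        ∏ j, (p.1 : ℝ) ^ A0 j p := by
      intro p
      rw [← Finset.prod_pow_eq_pow_sum]
      refine Finset.prod_congr rfl fun j _ => by rw [hAe]
    rw [Finset.prod_congr rfl fun p _ => h1 p, Finset.prod_comm, Real.rpow_sum_of_pos hB0]
    apply Finset.prod_le_prod (fun _ _ => by positivity)
    intro j _
    rw [Real.rpow_sum_of_pos hB0]
    exact Finset.prod_le_prod (fun _ _ => by positivity) fun p _ => hA1 j p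
  have hs1 : (∑ j, ∑ p, ((k2 j p : ℝ) / K)) + ∑ j, ((k1 j : ℝ) / K) =
      ((∑ j, (k1 j + ∑ p, k2 j p) : ℕ) : ℝ) / K := by
    push_cast
    rw [Finset.sum_add_distrib, add_div, Finset.sum_div, Finset.sum_div, add_comm]
    congr 1
    refine Finset.sum_congr rfl fun j _ => by rw [Finset.sum_div]
  have hs2 : ((∑ j, (k1 j + ∑ p, k2 j p) : ℕ) : ℝ) / K ≤ 1 := by
    rw [div_le_one hK0]
    exact_mod_cast hsum
  have hs3 : ∀ j, (k1 j : ℝ) / K ≤ ∑ j, ((k1 j : ℝ) / K) := fun j =>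
    Finset.single_le_sum (f := fun j => (k1 j : ℝ) / K) (fun j _ => by positivity)
      (Finset.mem_univ j)
  have hs4 : 0 ≤ ∑ j, ((k1 j : ℝ) / K) := Finset.sum_nonneg fun j _ => by positivity
  have h1 := hb B (fun j => B ^ (-((k1 j : ℝ) / K)))
    (fun p => ∑ j, if hp : p ∈ S then A0 j ⟨p, hp⟩ else 0)
    (fun j p => if hp : p ∈ S then A0 j ⟨p, hp⟩ else 0)
    (fun j => by positivity)
    (fun p _ j => Finset.single_le_sum
      (f := fun j => if hp : p ∈ S then A0 j ⟨p, hp⟩ else 0) (fun _ _ => Nat.zero_le _)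
      (Finset.mem_univ j))
    (hMle.trans (by
      calc B ^ (∑ j, ∑ p, ((k2 j p : ℝ) / K)) ≤ B ^ (1 : ℝ) :=
            Real.rpow_le_rpow_of_exponent_le hB (by linarith)
        _ = B := Real.rpow_one B))
    (fun j => hMle.trans (by
      calc B ^ (∑ j, ∑ p, ((k2 j p : ℝ) / K)) ≤ B ^ (1 + -((k1 j : ℝ) / K)) :=
            Real.rpow_le_rpow_of_exponent_le hB (by linarith [hs3 j])
        _ = B * B ^ (-((k1 j : ℝ) / K)) := by rw [Real.rpow_add hB0, Real.rpow_one]))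
    X (fun x hx => by
      obtain ⟨h1, h2, h3, h4, h5, h6⟩ := hX x hx
      refine ⟨h1, h2, h3, h5, ?_⟩
      intro p hp j
      simp only [dif_pos hp]
      have h7 := h6 ⟨p, hp⟩ j
      have h8 := (hA1 j ⟨p, hp⟩).trans h7
      have hp1 : (1 : ℝ) < p := by exact_mod_cast (hSp p hp).one_lt
      have h9 : A0 j ⟨p, hp⟩ ≤ padicValInt p (MvPolynomial.eval x (F j)) := by
        exact (pow_le_pow_iff_right₀ hp1).mp h8
      have : Fact p.Prime := ⟨hSp p hp⟩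
      rw [padicValInt_dvd_iff]
      exact Or.inr h9)
  refine h1.trans ?_
  rw [mul_assoc]
  apply mul_le_mul_of_nonneg_left _ hC
  rw [div_le_iff₀ (by
    refine Finset.prod_pos fun p hp => Finset.prod_pos fun j _ => ?_
    have : (0 : ℝ) < p := by exact_mod_cast (hSp p hp).pos
    positivity)]
  have h2 : ∏ j, B ^ (-((k1 j : ℝ) / K)) = B ^ (-∑ j, ((k1 j : ℝ) / K)) := by
    rw [← Finset.sum_neg_distrib, Real.rpow_sum_of_pos hB0]
  have h3 : B ^ (∑ j, ∑ p, ((k2 j p : ℝ) / K)) ≤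
      (∏ p : {p // p ∈ S}, ∏ _j : Fin q, (p.1 : ℝ)) *
        ∏ p ∈ S, ∏ j, (p : ℝ) ^ (if hp : p ∈ S then A0 j ⟨p, hp⟩ else 0) := by
    rw [← Finset.prod_coe_sort S
      (fun p => ∏ j, (p : ℝ) ^ (if hp : p ∈ S then A0 j ⟨p, hp⟩ else 0)),
      ← Finset.prod_mul_distrib, Real.rpow_sum_of_pos hB0]
    have h4 : ∏ j, B ^ (∑ p, ((k2 j p : ℝ) / K)) = ∏ p, ∏ j, B ^ ((k2 j p : ℝ) / K) := by
      rw [Finset.prod_comm]
      refine Finset.prod_congr rfl fun j _ => by rw [Real.rpow_sum_of_pos hB0]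
    rw [h4]
    apply Finset.prod_le_prod (fun _ _ => by positivity)
    intro p _
    rw [← Finset.prod_mul_distrib]
    apply Finset.prod_le_prod (fun _ _ => by positivity)
    intro j _
    rw [hAe]
    have := (hA2 j p).le
    rwa [pow_succ, mul_comm] at this
  rw [h2, ← hs1]
  calc B ^ (-∑ j, ((k1 j : ℝ) / K)) * B ^ n =
        B ^ ((n : ℝ) - (∑ j, ∑ p, ((k2 j p : ℝ) / K) + ∑ j, ((k1 j : ℝ) / K))) *
          B ^ (∑ j, ∑ p, ((k2 j p : ℝ) / K)) := by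
        rw [← Real.rpow_natCast B n, ← Real.rpow_add hB0, ← Real.rpow_add hB0]
        congr 1
        ring
    _ ≤ B ^ ((n : ℝ) - (∑ j, ∑ p, ((k2 j p : ℝ) / K) + ∑ j, ((k1 j : ℝ) / K))) *
          ((∏ p : {p // p ∈ S}, ∏ _j : Fin q, (p.1 : ℝ)) *
            ∏ p ∈ S, ∏ j, (p : ℝ) ^ (if hp : p ∈ S then A0 j ⟨p, hp⟩ else 0)) :=
        mul_le_mul_of_nonneg_left h3 (by positivity)
    _ = _ := by ring

end

end Pool.Agent.TH42.NC
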