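import Mathlib

set_option autoImplicit false

/-!
Packing of separated sets near a normal crossings divisor, over a locally compact field.
-/

namespace Pool.Agent.TH42.NC

open Finset

section Deriv

variable {𝕜 : Type*} [NontriviallyNormedField 𝕜] {n : ℕ}

/-- the derivative of a polynomial function -/
noncomputable def dP (F : MvPolynomial (Fin n) 𝕜) (z : Fin n → 𝕜) : (Fin n → 𝕜) →L[𝕜] 𝕜 :=
  ∑ i, (MvPolynomial.eval z (MvPolynomial.pderiv i F)) •
    (ContinuousLinearMap.proj i : (Fin n → 𝕜) →L[𝕜] 𝕜)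

theorem dP_apply (F : MvPolynomial (Fin n) 𝕜) (z y : Fin n → 𝕜) :
    dP F z y = ∑ i, (MvPolynomial.eval z (MvPolynomial.pderiv i F)) * y i := by
  simp [dP]

theorem hasStrictFDerivAt_eval (F : MvPolynomial (Fin n) 𝕜) (z : Fin n → 𝕜) :
    HasStrictFDerivAt (fun w : Fin n → 𝕜 => MvPolynomial.eval w F) (dP F z) z := by
  induction F using MvPolynomial.induction_on with
  | C a =>
    have h : dP (MvPolynomial.C a) z = 0 := by
      ext y
      simp [dP_apply]
    rw [h]
    simpa using hasStrictFDerivAt_const a z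
  | add p q hp hq =>
    have h : dP (p + q) z = dP p z + dP q z := by
      ext y
      simp [dP_apply, add_mul, Finset.sum_add_distrib]
    have h3 : (fun w : Fin n → 𝕜 => MvPolynomial.eval w (p + q)) =
        (fun w => MvPolynomial.eval w p) + fun w => MvPolynomial.eval w q := by
      ext w; simp
    rw [h, h3]
    exact hp.add hq
  | mul_X p i hp =>
    have h : dP (p * MvPolynomial.X i) z =
        (MvPolynomial.eval z p) • (ContinuousLinearMap.proj i : (Fin n → 𝕜) →L[𝕜] 𝕜) +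
          (z i) • dP p z := by
      ext y
      simp only [dP_apply, add_apply, smul_apply,
        ContinuousLinearMap.proj_apply, smul_eq_mul, Derivation.leibniz, map_add, map_mul,
        MvPolynomial.eval_X, MvPolynomial.pderiv_X, add_mul, Finset.sum_add_distrib]
      congr 1
      · rw [Finset.sum_eq_single i]
        · simp
        · intro j _ hj
          simp [hj.symm]
        · simp
      · rw [Finset.mul_sum]
        refine Finset.sum_congr rfl fun j _ => by ring
    rw [h]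
    have h2 : HasStrictFDerivAt (fun w : Fin n → 𝕜 => w i)
        (ContinuousLinearMap.proj i : (Fin n → 𝕜) →L[𝕜] 𝕜) z :=
      (ContinuousLinearMap.proj i : (Fin n → 𝕜) →L[𝕜] 𝕜).hasStrictFDerivAt
    have h3 : (fun w : Fin n → 𝕜 => MvPolynomial.eval w (p * MvPolynomial.X i)) =
        (fun w => MvPolynomial.eval w p) * fun w => w i := by
      ext w; simp
    rw [h3]
    exact hp.mul h2

theorem continuous_eval (F : MvPolynomial (Fin n) 𝕜) :
    Continuous (fun w : Fin n → 𝕜 => MvPolynomial.eval w F) := by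
  exact MvPolynomial.continuous_eval F

end Deriv

section Coords

variable {𝕜 : Type*} [Field 𝕜] {n : ℕ} {J : Type*} [Fintype J]

/-- A matrix with linearly independent rows has as many columns which are linearly independent. -/
theorem exists_coords (v : Fin n → J → 𝕜)
    (hli : LinearIndependent 𝕜 (fun j : J => fun i => v i j)) :
    ∃ I : Finset (Fin n), I.card = Fintype.card J ∧ ∀ y : Fin n → 𝕜, (∀ i, i ∉ I → y i = 0) →
      (∀ j : J, ∑ i, v i j * y i = 0) → y = 0 := by
  classical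
  obtain ⟨κ, a, ha, hsp, hia⟩ := exists_linearIndependent' 𝕜 v
  have : Fintype κ := Fintype.ofInjective a ha
  have htop : Submodule.span 𝕜 (Set.range v) = ⊤ := by
    by_contra hne
    obtain ⟨φ, hφ0, hφ⟩ := (Submodule.span 𝕜 (Set.range v)).exists_le_ker_of_lt_top
      (lt_top_iff_ne_top.mpr hne)
    apply hφ0
    have h1 : ∀ i, ∑ j, φ (Pi.single j 1) * v i j = 0 := by
      intro i
      have h2 : φ (v i) = 0 := hφ (Submodule.subset_span ⟨i, rfl⟩)
      rw [← h2]
      conv_rhs => rw [pi_eq_sum_univ (v i)]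
      rw [map_sum]
      refine Finset.sum_congr rfl fun j _ => ?_
      rw [map_smul, smul_eq_mul, mul_comm]
      congr 2
      ext k
      simp [Pi.single_apply, eq_comm]
    have h3 := Fintype.linearIndependent_iff.mp hli (fun j => φ (Pi.single j 1)) (by
      ext i
      have := h1 i
      simpa using this)
    apply LinearMap.pi_ext'
    intro j
    ext
    simpa using h3 j
  rw [← hsp] at htop
  let b := Module.Basis.mk hia (by rw [htop])
  have hcard : Fintype.card κ = Fintype.card J := by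
    have h1 := Module.finrank_eq_card_basis b
    rw [Module.finrank_fintype_fun_eq_card] at h1
    exact h1.symm
  refine ⟨Finset.univ.image a, ?_, ?_⟩
  · rw [Finset.card_image_of_injective _ ha, Finset.card_univ, hcard]
  · intro y hy1 hy2
    have h1 : ∑ k, y (a k) • v (a k) = 0 := by
      ext j
      have h2 := hy2 j
      rw [Finset.sum_apply, Pi.zero_apply, ← h2]
      rw [← Finset.sum_subset (Finset.subset_univ (Finset.univ.image a))]
      · rw [Finset.sum_image (fun _ _ _ _ h => ha h)]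
        refine Finset.sum_congr rfl fun k _ => ?_
        simp [mul_comm]
      · intro i _ hi
        rw [hy1 i hi, mul_zero]
    have h3 := Fintype.linearIndependent_iff.mp hia (fun k => y (a k)) h1
    ext i
    by_cases hi : i ∈ Finset.univ.image a
    · obtain ⟨k, _, rfl⟩ := Finset.mem_image.mp hi
      exact h3 k
    · exact hy1 i hi

end Coords

section Local

variable {𝕜 : Type*} [NontriviallyNormedField 𝕜] [CompleteSpace 𝕜] {n : ℕ}

theorem antilip {J : Type*} [Fintype J] (F : J → MvPolynomial (Fin n) 𝕜) (z0 : Fin n → 𝕜)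
    (hli : LinearIndependent 𝕜
      (fun j : J => fun i => MvPolynomial.eval z0 (MvPolynomial.pderiv i (F j)))) :
    ∃ I : Finset (Fin n), I.card = Fintype.card J ∧ ∃ ρ : ℝ, 0 < ρ ∧ ρ ≤ 1 ∧ ∃ U ∈ nhds z0,
      ∀ z ∈ U, ∀ z' ∈ U, ∀ t : ℝ, 0 < t →
        (∀ j, ‖MvPolynomial.eval z (F j) - MvPolynomial.eval z' (F j)‖ < t) →
        (∀ i, i ∉ I → ‖z i - z' i‖ < t) → ρ * ‖z - z'‖ < t := by
  classical
  obtain ⟨I, hI, hinj⟩ := exists_coords
    (fun i => fun j : J => MvPolynomial.eval z0 (MvPolynomial.pderiv i (F j))) hli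
  refine ⟨I, hI, ?_⟩
  let D : (Fin n → 𝕜) →L[𝕜] (J → 𝕜) × ({i : Fin n // i ∉ I} → 𝕜) :=
    (ContinuousLinearMap.pi fun j : J => dP (F j) z0).prod
      (ContinuousLinearMap.pi fun i : {i : Fin n // i ∉ I} =>
        (ContinuousLinearMap.proj i.1 : (Fin n → 𝕜) →L[𝕜] 𝕜))
  let Φ : (Fin n → 𝕜) → (J → 𝕜) × ({i : Fin n // i ∉ I} → 𝕜) := fun z =>
    (fun j => MvPolynomial.eval z (F j), fun i => z i.1)
  have hΦ : HasStrictFDerivAt Φ D z0 := by
    apply HasStrictFDerivAt.prodMk
    · apply hasStrictFDerivAt_pi.mpr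
      intro j
      exact hasStrictFDerivAt_eval (F j) z0
    · apply hasStrictFDerivAt_pi.mpr
      intro i
      exact (ContinuousLinearMap.proj i.1 : (Fin n → 𝕜) →L[𝕜] 𝕜).hasStrictFDerivAt
  have hker : LinearMap.ker D.toLinearMap = ⊥ := by
    rw [LinearMap.ker_eq_bot']
    intro y hy
    have hy' : D y = 0 := hy
    apply hinj y
    · intro i hi
      have h1 := congrFun (congrArg Prod.snd hy') ⟨i, hi⟩
      exact h1
    · intro j
      have h1 := congrFun (congrArg Prod.fst hy') j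
      have h2 : dP (F j) z0 y = 0 := h1
      rw [dP_apply] at h2
      exact h2
  obtain ⟨K, hK0, hK⟩ := LinearMap.exists_antilipschitzWith _ hker
  have hK1 : ∀ y : Fin n → 𝕜, ‖y‖ ≤ K * ‖D y‖ := by
    intro y
    have h1 := hK.le_mul_dist y 0
    rw [dist_zero_right] at h1
    simpa using h1
  have hKR : (0 : ℝ) < K := by exact_mod_cast hK0
  obtain ⟨U, hU, hap⟩ := hΦ.approximates_deriv_on_nhds (c := (2 * K)⁻¹)
    (Or.inr (by positivity))
  refine ⟨min 1 (2 * K : ℝ)⁻¹, by positivity, min_le_left _ _, U, hU, ?_⟩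
  intro z hz z' hz' t ht h1 h2
  have h3 := hap z hz z' hz'
  have h4 : ‖Φ z - Φ z'‖ < t := by
    rw [Prod.norm_def]
    apply max_lt
    · rw [pi_norm_lt_iff ht]
      intro j
      exact h1 j
    · rw [pi_norm_lt_iff ht]
      intro i
      exact h2 i.1 i.2
  have h5 := hK1 (z - z')
  have h6 : ‖D (z - z')‖ ≤ ‖Φ z - Φ z'‖ + ‖Φ z - Φ z' - D (z - z')‖ := by
    have := norm_sub_le (Φ z - Φ z') (Φ z - Φ z' - D (z - z'))
    rwa [sub_sub_cancel] at this
  have h7 : ((2 * K : NNReal)⁻¹ : NNReal) = ((2 * K : ℝ)⁻¹ : ℝ) := by push_cast; rfl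
  rw [h7] at h3
  have h8 : ‖z - z'‖ ≤ K * ‖Φ z - Φ z'‖ + (1 / 2) * ‖z - z'‖ := by
    calc ‖z - z'‖ ≤ K * ‖D (z - z')‖ := h5
      _ ≤ K * (‖Φ z - Φ z'‖ + (2 * K : ℝ)⁻¹ * ‖z - z'‖) := by
        apply mul_le_mul_of_nonneg_left _ hKR.le
        linarith
      _ = K * ‖Φ z - Φ z'‖ + (1 / 2) * ‖z - z'‖ := by
        field_simp
  have h9 : (2 * K : ℝ)⁻¹ * ‖z - z'‖ ≤ ‖Φ z - Φ z'‖ := by
    rw [inv_mul_le_iff₀ (by positivity)]
    linarith
  calc min 1 (2 * K : ℝ)⁻¹ * ‖z - z'‖ ≤ (2 * K : ℝ)⁻¹ * ‖z - z'‖ :=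
        mul_le_mul_of_nonneg_right (min_le_right _ _) (norm_nonneg _)
    _ ≤ ‖Φ z - Φ z'‖ := h9
    _ < t := h4

/-- balls of `𝕜` are covered by few small sets -/
def Packs (𝕜 : Type*) [NormedField 𝕜] (C : ℝ) : Prop :=
  ∀ w h : ℝ, 0 < h → h ≤ w → ∃ (k : ℕ) (g : 𝕜 → ℕ), (k : ℝ) ≤ C * (w / h) ∧
    (∀ y, ‖y‖ ≤ w → g y < k) ∧ ∀ y y', ‖y‖ ≤ w → ‖y'‖ ≤ w → g y = g y' → ‖y - y'‖ < h

/-- the gradients of the polynomials that vanish at `z` are linearly independent -/
def SNC {q : ℕ} (F : Fin q → MvPolynomial (Fin n) 𝕜) (z : Fin n → 𝕜) : Prop :=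
  LinearIndependent 𝕜 (fun j : {j : Fin q // MvPolynomial.eval z (F j) = 0} => fun i =>
    MvPolynomial.eval z (MvPolynomial.pderiv i (F j.1)))

/-- the packing bound for a set -/
def Bd {q : ℕ} (F : Fin q → MvPolynomial (Fin n) 𝕜) (c : ℝ) (U : Set (Fin n → 𝕜)) (C : ℝ) :
    Prop :=
  ∀ (ε : Fin q → ℝ) (h : ℝ), 0 < h → h ≤ 1 → (∀ j, h ≤ ε j) → ∀ Z : Finset (Fin n → 𝕜),
    (∀ z ∈ Z, z ∈ U ∧ ∀ j, ‖MvPolynomial.eval z (F j)‖ ≤ c * ε j) →
    (∀ z ∈ Z, ∀ z' ∈ Z, z ≠ z' → h ≤ ‖z - z'‖) → (Z.card : ℝ) ≤ C * ((∏ j, ε j) / h ^ n)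

theorem local_bd {C0 : ℝ} (hC0 : 1 ≤ C0) (hP : Packs 𝕜 C0) {q : ℕ}
    (F : Fin q → MvPolynomial (Fin n) 𝕜) (z0 : Fin n → 𝕜) (hS : SNC F z0) (c : ℝ) (hc : 1 ≤ c) :
    ∃ U ∈ nhds z0, ∃ C : ℝ, 0 ≤ C ∧ Bd F c U C := by
  classical
  obtain ⟨I, hI, ρ, hρ, hρ1, U1, hU1, hanti⟩ := antilip
    (fun j : {j : Fin q // MvPolynomial.eval z0 (F j) = 0} => F j.1) z0 hS
  -- lower bound for the other polynomials
  have hlow : ∃ η : ℝ, 0 < η ∧ η ≤ 1 ∧ ∃ U2 ∈ nhds z0, ∀ z ∈ U2, ∀ j,
      MvPolynomial.eval z0 (F j) ≠ 0 → η ≤ ‖MvPolynomial.eval z (F j)‖ := by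
    have h1 : ∀ j, ∃ η : ℝ, 0 < η ∧ η ≤ 1 ∧ ∃ U2 ∈ nhds z0, ∀ z ∈ U2,
        MvPolynomial.eval z0 (F j) ≠ 0 → η ≤ ‖MvPolynomial.eval z (F j)‖ := by
      intro j
      by_cases hj : MvPolynomial.eval z0 (F j) = 0
      · exact ⟨1, one_pos, le_rfl, Set.univ, Filter.univ_mem, fun z _ h => absurd hj h⟩
      · have hpos : 0 < ‖MvPolynomial.eval z0 (F j)‖ := norm_pos_iff.mpr hj
        refine ⟨min 1 (‖MvPolynomial.eval z0 (F j)‖ / 2), by positivity, min_le_left _ _,
          {z | ‖MvPolynomial.eval z0 (F j)‖ / 2 < ‖MvPolynomial.eval z (F j)‖}, ?_, ?_⟩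
        · apply IsOpen.mem_nhds
          · exact isOpen_lt continuous_const (continuous_eval (F j)).norm
          · show ‖MvPolynomial.eval z0 (F j)‖ / 2 < ‖MvPolynomial.eval z0 (F j)‖
            linarith
        · intro z hz _
          exact (min_le_right _ _).trans (le_of_lt hz)
    choose η hη hη1 U2 hU2 hU2' using h1
    by_cases hq : q = 0
    · subst hq
      exact ⟨1, one_pos, le_rfl, Set.univ, Filter.univ_mem, fun z _ j => j.elim0⟩
    · have hne : (Finset.univ : Finset (Fin q)).Nonempty := ⟨⟨0, by omega⟩, Finset.mem_univ _⟩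
      refine ⟨Finset.univ.inf' hne η, ?_, ?_, ⋂ j, U2 j, ?_, ?_⟩
      · rw [Finset.lt_inf'_iff]
        exact fun j _ => hη j
      · obtain ⟨j, hj⟩ := hne
        exact (Finset.inf'_le _ hj).trans (hη1 j)
      · exact Filter.iInter_mem.mpr hU2
      · intro z hz j hj
        exact (Finset.inf'_le _ (Finset.mem_univ j)).trans
          (hU2' j z (Set.mem_iInter.mp hz j) hj)
  obtain ⟨η, hη, hη1, U2, hU2, hlow⟩ := hlow
  set R : ℝ := ‖z0‖ + 1 with hR
  have hR1 : 1 ≤ R := by rw [hR]; linarith [norm_nonneg z0]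
  have hU3 : Metric.ball z0 1 ∈ nhds z0 := Metric.ball_mem_nhds z0 one_pos
  set J : Finset (Fin q) := Finset.univ.filter (fun j => MvPolynomial.eval z0 (F j) = 0) with hJ
  have hcardJ : Fintype.card {j : Fin q // MvPolynomial.eval z0 (F j) = 0} = J.card := by
    rw [hJ, Fintype.card_subtype]
  set A : ℝ := C0 * R * c / (ρ * η) with hA
  have hA1 : 1 ≤ A := by
    rw [hA, le_div_iff₀ (by positivity)]
    have h1 : ρ * η ≤ 1 := by nlinarith
    have h2 : 1 ≤ C0 * R := one_le_mul_of_one_le_of_one_le hC0 hR1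
    have h3 : 1 ≤ C0 * R * c := one_le_mul_of_one_le_of_one_le h2 hc
    linarith
  have hA0 : 0 < A := by linarith
  refine ⟨U1 ∩ (U2 ∩ Metric.ball z0 1), Filter.inter_mem hU1 (Filter.inter_mem hU2 hU3),
    A ^ n * A ^ q, by positivity, ?_⟩
  intro ε h hh hh1 hhε Z hZ hsep
  have hε0 : ∀ j, 0 < ε j := fun j => lt_of_lt_of_le hh (hhε j)
  rcases Z.eq_empty_or_nonempty with hZe | hZne
  · rw [hZe, Finset.card_empty, Nat.cast_zero]
    have : 0 ≤ ∏ j, ε j := Finset.prod_nonneg fun j _ => (hε0 j).le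
    have h2 : 0 ≤ (∏ j, ε j) / h ^ n := div_nonneg this (by positivity)
    exact mul_nonneg (by positivity) h2
  have hρh : 0 < ρ * h := by positivity
  have hρh1 : ρ * h ≤ h := by nlinarith
  -- the codes
  have hcode1 : ∀ j : Fin q, ∃ (k : ℕ) (g : 𝕜 → ℕ), (k : ℝ) ≤ C0 * ((c * ε j) / (ρ * h)) ∧
      (∀ y, ‖y‖ ≤ c * ε j → g y < k) ∧
      ∀ y y', ‖y‖ ≤ c * ε j → ‖y'‖ ≤ c * ε j → g y = g y' → ‖y - y'‖ < ρ * h := by
    intro j
    apply hP _ _ hρh
    have h1 := hhε j
    have h2 := hε0 j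
    nlinarith
  choose k1 g1 hk1 hg1 hg1' using hcode1
  obtain ⟨k2, g2, hk2, hg2, hg2'⟩ := hP R (ρ * h) hρh (by linarith)
  have hbound : Z.card ≤ (∏ j : {j : Fin q // MvPolynomial.eval z0 (F j) = 0}, k1 j.1) *
      k2 ^ (n - I.card) := by
    have h1 : Z.card ≤ ((Fintype.piFinset (fun j : {j : Fin q // MvPolynomial.eval z0 (F j) = 0} =>
        Finset.range (k1 j.1))) ×ˢ
        (Fintype.piFinset (fun _ : {i : Fin n // i ∉ I} => Finset.range k2))).card := by
      apply Finset.card_le_card_of_injOn (fun z => ((fun j => g1 j.1 (MvPolynomial.eval z (F j.1))),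
        (fun i => g2 (z i.1))))
      · intro z hz
        have hz1 := hZ z hz
        simp only [Finset.coe_product, Set.mem_prod, Finset.mem_coe, Fintype.mem_piFinset,
          Finset.mem_range]
        constructor
        · intro j
          exact hg1 _ _ (hz1.2 j.1)
        · intro i
          apply hg2
          have h2 : dist z z0 < 1 := hz1.1.2.2
          rw [dist_eq_norm] at h2
          have h3 : ‖z‖ ≤ R := by
            have := norm_le_norm_add_norm_sub' z z0
            rw [hR]; linarith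
          exact (norm_le_pi_norm z i.1).trans h3
      · intro z hz z' hz' heq
        have hz1 := hZ z hz
        have hz1' := hZ z' hz'
        by_contra hne
        have h2 := hsep z hz z' hz' hne
        have hnorm : ∀ w ∈ Z, ‖w‖ ≤ R := by
          intro w hw
          have h2 : dist w z0 < 1 := (hZ w hw).1.2.2
          rw [dist_eq_norm] at h2
          have := norm_le_norm_add_norm_sub' w z0
          rw [hR]; linarith
        have h3 := hanti z hz1.1.1 z' hz1'.1.1 (ρ * h) hρh (fun j => by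
          have h4 := congrFun (congrArg Prod.fst heq) j
          exact hg1' _ _ _ (hz1.2 j.1) (hz1'.2 j.1) h4) (fun i hi => by
          have h4 := congrFun (congrArg Prod.snd heq) ⟨i, hi⟩
          exact hg2' _ _ ((norm_le_pi_norm z i).trans (hnorm z hz))
            ((norm_le_pi_norm z' i).trans (hnorm z' hz')) h4)
        have h4 : ‖z - z'‖ < h := lt_of_mul_lt_mul_left h3 hρ.le
        linarith
    refine h1.trans (le_of_eq ?_)
    rw [Finset.card_product, Fintype.card_piFinset, Fintype.card_piFinset]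
    simp only [Finset.card_range, Finset.prod_const, Finset.card_univ]
    congr 2
    rw [Fintype.card_subtype_compl]
    simp
  have hIn : I.card ≤ n := by
    have := Finset.card_le_univ I
    simpa using this
  -- conclusion
  have h1 : (Z.card : ℝ) ≤ (∏ j ∈ J, (A * (ε j / h))) * (A / h) ^ (n - J.card) := by
    calc (Z.card : ℝ) ≤ ((∏ j : {j : Fin q // MvPolynomial.eval z0 (F j) = 0}, k1 j.1) *
          k2 ^ (n - I.card) : ℕ) := by exact_mod_cast hbound
      _ = (∏ j ∈ J, (k1 j : ℝ)) * (k2 : ℝ) ^ (n - J.card) := by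
        push_cast
        rw [hI, hcardJ, hJ, Finset.prod_subtype (p := fun j => MvPolynomial.eval z0 (F j) = 0)
          (Finset.univ.filter (fun j => MvPolynomial.eval z0 (F j) = 0))
          (by intro j; simp) (fun j => (k1 j : ℝ))]
      _ ≤ _ := by
        apply mul_le_mul
        · apply Finset.prod_le_prod
          · intro j _; positivity
          · intro j _
            refine (hk1 j).trans ?_
            rw [hA]
            have h2 : C0 * (c * ε j / (ρ * h)) = C0 * c / ρ * (ε j / h) := by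
              field_simp
            rw [h2]
            apply mul_le_mul_of_nonneg_right _ (by have := hε0 j; positivity)
            rw [div_le_div_iff₀ hρ (by positivity)]
            have h3 : C0 * c * (ρ * η) ≤ C0 * c * ρ := by
              have : ρ * η ≤ ρ := by nlinarith
              exact mul_le_mul_of_nonneg_left this (by positivity)
            have h4 : C0 * c * ρ ≤ C0 * R * c * ρ := by
              have : C0 * c * ρ * 1 ≤ C0 * c * ρ * R := mul_le_mul_of_nonneg_left hR1 (by positivity)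
              linarith
            linarith
        · apply pow_le_pow_left₀ (by positivity)
          refine hk2.trans ?_
          rw [hA]
          have h2 : C0 * (R / (ρ * h)) = C0 * R / ρ / h := by
            field_simp
          rw [h2]
          apply div_le_div_of_nonneg_right _ hh.le
          rw [div_le_div_iff₀ hρ (by positivity)]
          have h3 : C0 * R * (ρ * η) ≤ C0 * R * ρ := by
            have : ρ * η ≤ ρ := by nlinarith
            exact mul_le_mul_of_nonneg_left this (by positivity)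
          have h4 : C0 * R * ρ ≤ C0 * R * c * ρ := by
            have : C0 * R * ρ * 1 ≤ C0 * R * ρ * c := mul_le_mul_of_nonneg_left hc (by positivity)
            linarith
          linarith
        · positivity
        · apply Finset.prod_nonneg
          intro j _
          have := hε0 j
          positivity
  have h2 : (1 : ℝ) ≤ ∏ j ∈ Jᶜ, (A * ε j) := by
    have h3 : (1 : ℝ) = ∏ j ∈ Jᶜ, (1 : ℝ) := by simp
    rw [h3]
    apply Finset.prod_le_prod (fun _ _ => zero_le_one)
    intro j hj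
    obtain ⟨z, hz⟩ := hZne
    have hj' : MvPolynomial.eval z0 (F j) ≠ 0 := by
      rw [hJ] at hj
      simpa using hj
    have h4 := hlow z (hZ z hz).1.2.1 j hj'
    have h5 := (hZ z hz).2 j
    have h6 : η ≤ c * ε j := h4.trans h5
    have h7 : 1 ≤ (c / η) * ε j := by
      rw [div_mul_eq_mul_div, le_div_iff₀ hη]
      linarith
    refine h7.trans ?_
    apply mul_le_mul_of_nonneg_right _ (hε0 j).le
    rw [hA, div_le_div_iff₀ hη (by positivity)]
    have h8 : c * (ρ * η) ≤ c * η := by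
      apply mul_le_mul_of_nonneg_left _ (by linarith)
      nlinarith
    have h9 : c * η ≤ C0 * R * c * η := by
      have h10 : 1 ≤ C0 * R := one_le_mul_of_one_le_of_one_le hC0 hR1
      have h11 : 0 ≤ c * η := by positivity
      nlinarith
    linarith
  have hJn : J.card ≤ n := by rw [← hcardJ, ← hI]; exact hIn
  have h3 : (∏ j ∈ J, (A * (ε j / h))) * (A / h) ^ (n - J.card) * ∏ j ∈ Jᶜ, (A * ε j) =
      A ^ (n - J.card) * A ^ q * ((∏ j, ε j) / h ^ n) := by
    have h4 : ∏ j ∈ J, (A * (ε j / h)) = (∏ j ∈ J, (A * ε j)) / h ^ J.card := by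
      rw [← Finset.prod_const, ← Finset.prod_div_distrib]
      refine Finset.prod_congr rfl fun j _ => by ring
    have h5 : (∏ j ∈ J, (A * ε j)) * ∏ j ∈ Jᶜ, (A * ε j) = A ^ q * ∏ j, ε j := by
      rw [Finset.prod_mul_prod_compl, Finset.prod_mul_distrib]
      simp
    have h6 : h ^ n = h ^ J.card * h ^ (n - J.card) := by
      rw [← pow_add]; congr 1; omega
    rw [h4, div_pow, h6]
    calc (∏ j ∈ J, A * ε j) / h ^ J.card * (A ^ (n - J.card) / h ^ (n - J.card)) *
          ∏ j ∈ Jᶜ, A * ε j = ((∏ j ∈ J, (A * ε j)) * ∏ j ∈ Jᶜ, (A * ε j)) *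
            A ^ (n - J.card) / (h ^ J.card * h ^ (n - J.card)) := by
          field_simp
      _ = _ := by rw [h5]; ring
  have hprodnn : 0 ≤ ∏ j, ε j := Finset.prod_nonneg fun j _ => (hε0 j).le
  calc (Z.card : ℝ) ≤ (∏ j ∈ J, (A * (ε j / h))) * (A / h) ^ (n - J.card) := h1
    _ ≤ (∏ j ∈ J, (A * (ε j / h))) * (A / h) ^ (n - J.card) * ∏ j ∈ Jᶜ, (A * ε j) := by
      apply le_mul_of_one_le_right _ h2
      apply mul_nonneg
      · apply Finset.prod_nonneg
        intro j _
        have := hε0 j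
        positivity
      · positivity
    _ = A ^ (n - J.card) * A ^ q * ((∏ j, ε j) / h ^ n) := h3
    _ ≤ A ^ n * A ^ q * ((∏ j, ε j) / h ^ n) := by
      apply mul_le_mul_of_nonneg_right _ (div_nonneg hprodnn (by positivity))
      apply mul_le_mul_of_nonneg_right _ (by positivity)
      exact pow_le_pow_right₀ hA1 (by omega)

/-- the packing bound on compact sets -/
theorem compact_bd {C0 : ℝ} (hC0 : 1 ≤ C0) (hP : Packs 𝕜 C0) {q : ℕ}
    (F : Fin q → MvPolynomial (Fin n) 𝕜) (c : ℝ) (hc : 1 ≤ c) (K : Set (Fin n → 𝕜))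
    (hK : IsCompact K) (hS : ∀ z ∈ K, SNC F z) : ∃ C : ℝ, 0 ≤ C ∧ Bd F c K C := by
  classical
  refine hK.induction_on (p := fun s => ∃ C : ℝ, 0 ≤ C ∧ Bd F c s C) ?_ ?_ ?_ ?_
  · refine ⟨0, le_rfl, ?_⟩
    intro ε h hh hh1 hhε Z hZ _
    have : Z = ∅ := by
      apply Finset.eq_empty_of_forall_notMem
      intro z hz
      exact (hZ z hz).1
    rw [this]
    simp
  · rintro s t hst ⟨C, hC, hb⟩
    refine ⟨C, hC, ?_⟩
    intro ε h hh hh1 hhε Z hZ hsep
    exact hb ε h hh hh1 hhε Z (fun z hz => ⟨hst (hZ z hz).1, (hZ z hz).2⟩) hsep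
  · rintro s t ⟨C, hC, hb⟩ ⟨C', hC', hb'⟩
    refine ⟨C + C', by positivity, ?_⟩
    intro ε h hh hh1 hhε Z hZ hsep
    have h1 := hb ε h hh hh1 hhε (Z.filter (fun z => z ∈ s))
      (fun z hz => ⟨(Finset.mem_filter.mp hz).2, (hZ z (Finset.mem_filter.mp hz).1).2⟩)
      (fun z hz z' hz' => hsep z (Finset.mem_filter.mp hz).1 z' (Finset.mem_filter.mp hz').1)
    have h2 := hb' ε h hh hh1 hhε (Z.filter (fun z => ¬ z ∈ s))
      (fun z hz => ⟨((hZ z (Finset.mem_filter.mp hz).1).1).resolve_left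
        (Finset.mem_filter.mp hz).2, (hZ z (Finset.mem_filter.mp hz).1).2⟩)
      (fun z hz z' hz' => hsep z (Finset.mem_filter.mp hz).1 z' (Finset.mem_filter.mp hz').1)
    have h3 := Finset.card_filter_add_card_filter_not (s := Z) (fun z => z ∈ s)
    have h4 : (Z.card : ℝ) = ((Z.filter (fun z => z ∈ s)).card : ℝ) +
        ((Z.filter (fun z => ¬ z ∈ s)).card : ℝ) := by exact_mod_cast h3.symm
    rw [h4, add_mul]
    exact add_le_add h1 h2
  · intro z hz
    obtain ⟨U, hU, C, hC, hb⟩ := local_bd hC0 hP F z (hS z hz) c hc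
    exact ⟨U, mem_nhdsWithin_of_mem_nhds hU, C, hC, hb⟩

end Local

end Pool.Agent.TH42.NC
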