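import Pool.Agent.TH42.NC.Loc

set_option autoImplicit false

namespace Pool.Agent.TH42.NC

theorem packs_real : Packs ℝ 5 := by
  intro w h hh hw
  have hw0 : 0 < w := lt_of_lt_of_le hh hw
  have hr : 1 ≤ w / h := by rw [le_div_iff₀ hh]; linarith
  refine ⟨⌊4 * (w / h)⌋₊ + 1, fun y => ⌊(y + w) / (h / 2)⌋₊, ?_, ?_, ?_⟩
  · push_cast
    have := Nat.floor_le (show (0 : ℝ) ≤ 4 * (w / h) by positivity)
    linarith
  · intro y hy
    rw [Real.norm_eq_abs] at hy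
    have h1 := abs_le.mp hy
    apply Nat.lt_succ_of_le
    apply Nat.floor_le_floor
    rw [div_le_iff₀ (by positivity)]
    have : 4 * (w / h) * (h / 2) = 2 * w := by field_simp; ring
    rw [this]
    linarith [h1.2]
  · intro y y' hy hy' hg
    rw [Real.norm_eq_abs] at hy hy'
    have h1 := abs_le.mp hy
    have h1' := abs_le.mp hy'
    have h2 : 0 ≤ (y + w) / (h / 2) := div_nonneg (by linarith [h1.1]) (by positivity)
    have h2' : 0 ≤ (y' + w) / (h / 2) := div_nonneg (by linarith [h1'.1]) (by positivity)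
    have h3 := Nat.floor_le h2
    have h3' := Nat.floor_le h2'
    have h4 := Nat.lt_floor_add_one ((y + w) / (h / 2))
    have h4' := Nat.lt_floor_add_one ((y' + w) / (h / 2))
    simp only at hg
    rw [hg] at h3 h4
    rw [Real.norm_eq_abs, abs_lt]
    set g : ℝ := (⌊(y' + w) / (h / 2)⌋₊ : ℝ) with hgd
    have hh2 : 0 < h / 2 := by positivity
    rw [le_div_iff₀ hh2] at h3 h3'
    rw [div_lt_iff₀ hh2] at h4 h4'
    constructor <;> nlinarith

theorem packs_padic (p : ℕ) [hp : Fact p.Prime] : Packs ℚ_[p] p := by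
  intro w h hh hw
  have hp1 : (1 : ℝ) < p := by exact_mod_cast hp.out.one_lt
  have hp0 : (0 : ℝ) < p := by linarith
  have hw0 : 0 < w := lt_of_lt_of_le hh hw
  have hr : 1 ≤ w / h := by rw [le_div_iff₀ hh]; linarith
  obtain ⟨m, hm1, hm2⟩ := exists_mem_Ico_zpow hw0 hp1
  obtain ⟨k, hk1, hk2⟩ := exists_nat_pow_near hr hp1
  have hint : ∀ y : ℚ_[p], ‖y‖ ≤ w → ‖(p : ℚ_[p]) ^ m * y‖ ≤ 1 := by
    intro y hy
    have h1 : ‖y‖ ≤ (p : ℝ) ^ m := by
      rw [Padic.norm_le_pow_iff_norm_lt_pow_add_one]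
      exact lt_of_le_of_lt hy hm2
    rw [norm_mul, Padic.norm_p_zpow, zpow_neg, inv_mul_le_iff₀ (by positivity), mul_one]
    exact h1
  classical
  refine ⟨p ^ (k + 1), fun y => if hy : ‖(p : ℚ_[p]) ^ m * y‖ ≤ 1 then
    (PadicInt.toZModPow (k + 1) ⟨(p : ℚ_[p]) ^ m * y, hy⟩).val else 0, ?_, ?_, ?_⟩
  · push_cast
    rw [pow_succ, mul_comm]
    exact mul_le_mul_of_nonneg_left hk1 hp0.le
  · intro y hy
    simp only [dif_pos (hint y hy)]
    have : NeZero (p ^ (k + 1)) := ⟨pow_ne_zero _ hp.out.ne_zero⟩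
    exact ZMod.val_lt _
  · intro y y' hy hy' hg
    simp only [dif_pos (hint y hy), dif_pos (hint y' hy')] at hg
    have : NeZero (p ^ (k + 1)) := ⟨pow_ne_zero _ hp.out.ne_zero⟩
    have h1 := ZMod.val_injective _ hg
    obtain ⟨u, hu⟩ : ∃ u : ℤ_[p], u = ⟨(p : ℚ_[p]) ^ m * y, hint y hy⟩ := ⟨_, rfl⟩
    obtain ⟨u', hu'⟩ : ∃ u : ℤ_[p], u = ⟨(p : ℚ_[p]) ^ m * y', hint y' hy'⟩ := ⟨_, rfl⟩
    rw [← hu, ← hu'] at h1
    have h2 : u - u' ∈ RingHom.ker (PadicInt.toZModPow (p := p) (k + 1)) := by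
      rw [RingHom.mem_ker, map_sub, h1, sub_self]
    rw [PadicInt.ker_toZModPow, ← PadicInt.norm_le_pow_iff_mem_span_pow] at h2
    have h3 : ‖(p : ℚ_[p]) ^ m * y - (p : ℚ_[p]) ^ m * y'‖ ≤ (p : ℝ) ^ (-((k + 1 : ℕ) : ℤ)) := by
      rw [hu, hu'] at h2
      exact h2
    rw [← mul_sub, norm_mul, Padic.norm_p_zpow, zpow_neg, inv_mul_le_iff₀ (by positivity),
      zpow_neg, zpow_natCast] at h3
    refine lt_of_le_of_lt h3 ?_
    have h4 : w < (p : ℝ) ^ (k + 1) * h := by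
      rwa [div_lt_iff₀ hh] at hk2
    calc (p : ℝ) ^ m * ((p : ℝ) ^ (k + 1))⁻¹ ≤ w * ((p : ℝ) ^ (k + 1))⁻¹ :=
          mul_le_mul_of_nonneg_right hm1 (by positivity)
      _ < h := by
        rw [← div_eq_mul_inv, div_lt_iff₀ (by positivity)]
        linarith

end Pool.Agent.TH42.NC
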