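import Pool.Agent.TH42.NC.Grid

set_option autoImplicit false

namespace Pool.Agent.TH42.NC

open Finset

section

variable {n q : ℕ}

/-- the sum of the proximities, with a real height `H` -/
noncomputable def prox (F : Fin q → MvPolynomial (Fin n) ℤ) (d : Fin q → ℕ) (S : Finset ℕ)
    (H : ℝ) (x : Fin n → ℤ) : ℝ :=
  ∑ j, (Real.log (H ^ d j / |((MvPolynomial.eval x (F j) : ℤ) : ℝ)|) +
    ∑ p ∈ S, (padicValInt p (MvPolynomial.eval x (F j)) : ℝ) * Real.log p)

theorem exists_bound (F : Fin q → MvPolynomial (Fin n) ℤ) (d : Fin q → ℕ)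
    (hF : ∀ j, (F j).IsHomogeneous (d j)) : ∃ c : ℝ, 1 ≤ c ∧ ∀ (B : ℝ) (x : Fin n → ℤ), 0 < B →
      (∀ i, |(x i : ℝ)| ≤ B) → ∀ j, |((MvPolynomial.eval x (F j) : ℤ) : ℝ)| ≤ c * B ^ d j := by
  have h1 : ∀ j, ∃ c : ℝ, ∀ z ∈ Metric.closedBall (0 : Fin n → ℝ) 1,
      ‖MvPolynomial.eval z ((F j).map (Int.castRingHom ℝ))‖ ≤ c := fun j =>
    (isCompact_closedBall _ _).exists_bound_of_continuousOn (continuous_eval _).continuousOn
  choose c hc using h1
  refine ⟨1 + ∑ j, |c j|, by
    have : 0 ≤ ∑ j, |c j| := Finset.sum_nonneg fun j _ => abs_nonneg _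
    linarith, ?_⟩
  intro B x hB hx j
  have h2 := hc j (fun i => (x i : ℝ) / B) (by
    rw [mem_closedBall_zero_iff, pi_norm_le_iff_of_nonneg zero_le_one]
    intro i
    rw [Real.norm_eq_abs, abs_div, abs_of_pos hB, div_le_one hB]
    exact hx i)
  rw [eval_map'] at h2
  have h3 := aeval_smul_hom (F j) (hF j) B (fun i => (x i : ℝ) / B)
  have h4 : (fun i => B * ((x i : ℝ) / B)) = fun i => (x i : ℝ) := by
    ext i; field_simp
  rw [h4, aeval_int] at h3
  rw [h3, abs_mul, abs_of_pos (by positivity : (0 : ℝ) < B ^ d j), mul_comm]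
  apply mul_le_mul_of_nonneg_right _ (by positivity)
  rw [Real.norm_eq_abs] at h2
  have h5 : c j ≤ ∑ j, |c j| := (le_abs_self _).trans
    (Finset.single_le_sum (f := fun j => |c j|) (fun j _ => abs_nonneg _) (Finset.mem_univ j))
  linarith

theorem shell (F : Fin q → MvPolynomial (Fin n) ℤ) (d : Fin q → ℕ)
    (hF : ∀ j, (F j).IsHomogeneous (d j)) (S : Finset ℕ) (hSp : ∀ p ∈ S, p.Prime)
    (hR : SNCR F ℝ) (hQ : ∀ p ∈ S, ∀ [Fact p.Prime], SNCR F ℚ_[p])
    (κ c0 δ : ℝ) (hδ : 0 < δ) :
    ∃ C : ℝ, 0 ≤ C ∧ ∀ B : ℝ, 2 ≤ B → ∀ X : Finset (Fin n → ℤ),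
      (∀ x ∈ X, Prim x ∧ (∀ j, MvPolynomial.eval x (F j) ≠ 0) ∧
        ∃ H : ℝ, 1 ≤ H ∧ B / 2 ≤ H ∧ H ≤ B ∧ (∀ i, |(x i : ℝ)| ≤ H) ∧
        (∃ i, H ≤ |(x i : ℝ)|) ∧ κ * Real.log H + c0 ≤ prox F d S H x) →
      (X.card : ℝ) ≤ C * B ^ ((n : ℝ) - min (max κ 0) 1 + δ) := by
  classical
  obtain ⟨c, hc, hcb⟩ := exists_bound F d hF
  obtain ⟨C, hC, hb⟩ := class_count F d hF S hSp hR hQ c hc
  let ι := Fin q × Option {p // p ∈ S}
  obtain ⟨K, hK⟩ := exists_nat_gt ((Fintype.card ι : ℝ) / δ)
  have hK1 : 1 ≤ K := by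
    have : (0 : ℝ) < K := lt_of_le_of_lt (by positivity) hK
    exact_mod_cast this
  have hKR : (1 : ℝ) ≤ K := by exact_mod_cast hK1
  have hK0 : (0 : ℝ) < K := by linarith
  have hmK : (Fintype.card ι : ℝ) / K ≤ δ := by
    rw [div_lt_iff₀ hδ] at hK
    rw [div_le_iff₀ hK0]
    linarith
  set θ : ℝ := min (max κ 0) 1 with hθ
  have hθ0 : 0 ≤ θ := le_min (le_max_right _ _) zero_le_one
  have hθ1 : θ ≤ 1 := min_le_right _ _
  set c' : ℝ := |κ| * Real.log 2 + |c0| with hc'
  have hlog2 : 0 < Real.log 2 := Real.log_pos (by norm_num)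
  have hc'0 : 0 ≤ c' := by positivity
  refine ⟨((K + 1 : ℕ) : ℝ) ^ Fintype.card ι * (C * Real.exp c'), by positivity, ?_⟩
  intro B hB X hX
  have hB0 : 0 < B := by linarith
  have hB1 : 1 ≤ B := by linarith
  have hL : 0 < Real.log B := Real.log_pos (by linarith)
  -- the exponents
  let t : (Fin n → ℤ) → ι → ℝ := fun x i => match i.2 with
    | none => Real.log (c * B ^ d i.1 / |((MvPolynomial.eval x (F i.1) : ℤ) : ℝ)|) / Real.log B
    | some p => (padicValInt p.1 (MvPolynomial.eval x (F i.1)) : ℝ) * Real.log p.1 / Real.log B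
  have ht0 : ∀ x ∈ X, ∀ i, 0 ≤ t x i := by
    intro x hx i
    obtain ⟨hprim, hne, H, hH1, hHB, hHB', hxH, hxH', hprox⟩ := hX x hx
    obtain ⟨j, o⟩ := i
    cases o with
    | none =>
      apply div_nonneg _ hL.le
      apply Real.log_nonneg
      have h1 : (0 : ℝ) < |((MvPolynomial.eval x (F j) : ℤ) : ℝ)| :=
        abs_pos.mpr (by exact_mod_cast hne j)
      rw [le_div_iff₀ h1, one_mul]
      exact hcb B x hB0 (fun i => (hxH i).trans hHB') j
    | some p =>
      apply div_nonneg _ hL.le
      apply mul_nonneg (by positivity)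
      apply Real.log_nonneg
      exact_mod_cast (hSp p.1 p.2).one_le
  have htsum : ∀ x ∈ X, θ - c' / Real.log B ≤ ∑ i, t x i := by
    intro x hx
    obtain ⟨hprim, hne, H, hH1, hHB, hHB', hxH, hxH', hprox⟩ := hX x hx
    have h0 : 0 ≤ ∑ i, t x i := Finset.sum_nonneg fun i _ => ht0 x hx i
    by_cases hκ : κ ≤ 0
    · have : θ = 0 := by
        rw [hθ, max_eq_right hκ]
        exact min_eq_left zero_le_one
      rw [this]
      have : 0 ≤ c' / Real.log B := by positivity
      linarith
    · push Not at hκ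
      have h1 : prox F d S H x ≤ (∑ i, t x i) * Real.log B := by
        rw [Fintype.sum_prod_type, Finset.sum_mul]
        unfold prox
        apply Finset.sum_le_sum
        intro j _
        rw [Fintype.sum_option, add_mul]
        have h1 : (0 : ℝ) < |((MvPolynomial.eval x (F j) : ℤ) : ℝ)| :=
          abs_pos.mpr (by exact_mod_cast hne j)
        apply add_le_add
        · show _ ≤ Real.log (c * B ^ d j / |((MvPolynomial.eval x (F j) : ℤ) : ℝ)|) /
            Real.log B * Real.log B
          rw [div_mul_cancel₀ _ hL.ne']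
          apply Real.log_le_log (by positivity)
          apply div_le_div_of_nonneg_right _ h1.le
          have h2 : H ^ d j ≤ B ^ d j := pow_le_pow_left₀ (by linarith) hHB' _
          have h3 : B ^ d j ≤ c * B ^ d j := le_mul_of_one_le_left (by positivity) hc
          linarith
        · rw [← Finset.sum_coe_sort S, Finset.sum_mul]
          apply le_of_eq
          refine Finset.sum_congr rfl fun p _ => ?_
          show _ = (padicValInt p.1 (MvPolynomial.eval x (F j)) : ℝ) * Real.log p.1 /
            Real.log B * Real.log B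
          rw [div_mul_cancel₀ _ hL.ne']
      have h2 : Real.log B - Real.log 2 ≤ Real.log H := by
        rw [← Real.log_div hB0.ne' (by norm_num)]
        exact Real.log_le_log (by positivity) hHB
      have h3 : κ * (Real.log B - Real.log 2) + c0 ≤ (∑ i, t x i) * Real.log B := by
        have := mul_le_mul_of_nonneg_left h2 hκ.le
        linarith
      have h4 : θ ≤ κ := by
        rw [hθ, max_eq_left hκ.le]
        exact min_le_left _ _
      rw [sub_le_iff_le_add, ← sub_le_iff_le_add', ← mul_le_mul_iff_left₀ hL, sub_mul,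
        div_mul_cancel₀ _ hL.ne']
      have h5 : θ * Real.log B ≤ κ * Real.log B := mul_le_mul_of_nonneg_right h4 hL.le
      have h6 : -c0 ≤ |c0| := neg_le_abs c0
      have h7 : |κ| = κ := abs_of_pos hκ
      rw [hc', h7]
      nlinarith
  -- the discretised exponents
  have hk : ∀ x ∈ X, ∃ k : ι → ℕ, (∀ i, k i ≤ K) ∧ ∑ i, k i ≤ K ∧ (∀ i, (k i : ℝ) / K ≤ t x i) ∧
      θ - c' / Real.log B - δ ≤ ((∑ i, k i : ℕ) : ℝ) / K := by
    intro x hx
    have ht := ht0 x hx
    have hts := htsum x hx
    obtain ⟨k, hk1, hk2⟩ := exists_lower' K (fun i => min K ⌊(K : ℝ) * t x i⌋₊)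
    refine ⟨k, fun i => (hk1 i).trans (min_le_left _ _), by rw [hk2]; exact min_le_left _ _,
      ?_, ?_⟩
    · intro i
      rw [div_le_iff₀ hK0]
      have h1 : (k i : ℝ) ≤ (⌊(K : ℝ) * t x i⌋₊ : ℝ) := by
        exact_mod_cast (hk1 i).trans (min_le_right _ _)
      have h2 := Nat.floor_le (mul_nonneg hK0.le (ht i))
      linarith
    · rw [hk2]
      by_cases hbig : K ≤ ∑ i, min K ⌊(K : ℝ) * t x i⌋₊
      · rw [min_eq_left hbig, div_self hK0.ne']
        have : 0 ≤ c' / Real.log B := by positivity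
        linarith
      · rw [min_eq_right (by omega)]
        push Not at hbig
        have h1 : ∀ i, min K ⌊(K : ℝ) * t x i⌋₊ = ⌊(K : ℝ) * t x i⌋₊ := by
          intro i
          apply min_eq_right
          by_contra hlt
          push Not at hlt
          have h2 : K ≤ ∑ i, min K ⌊(K : ℝ) * t x i⌋₊ := by
            calc K = min K ⌊(K : ℝ) * t x i⌋₊ := (min_eq_left hlt.le).symm
              _ ≤ _ := Finset.single_le_sum (f := fun i => min K ⌊(K : ℝ) * t x i⌋₊)
                (fun _ _ => Nat.zero_le _) (Finset.mem_univ i)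
          omega
        rw [Finset.sum_congr rfl fun i _ => h1 i, le_div_iff₀ hK0]
        push_cast
        have h2 : ∑ i, ((K : ℝ) * t x i - 1) ≤ ∑ i, (⌊(K : ℝ) * t x i⌋₊ : ℝ) :=
          Finset.sum_le_sum fun i _ => by
            have := Nat.lt_floor_add_one ((K : ℝ) * t x i)
            linarith
        rw [Finset.sum_sub_distrib, ← Finset.mul_sum] at h2
        simp only [Finset.sum_const, Finset.card_univ, nsmul_eq_mul, mul_one] at h2
        have h3 : (Fintype.card ι : ℝ) ≤ δ * K := by
          rwa [div_le_iff₀ hK0] at hmK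
        have h4 : (θ - c' / Real.log B) * K ≤ (∑ i, t x i) * K :=
          mul_le_mul_of_nonneg_right hts hK0.le
        nlinarith
  choose! k hk1 hk2 hk3 hk4 using hk
  -- count
  have hcard : (X.card : ℝ) ≤ ∑ b ∈ Fintype.piFinset (fun _ : ι => Finset.range (K + 1)),
      (((X.filter (fun x => k x = b)).card : ℕ) : ℝ) := by
    have h1 := Finset.card_eq_sum_card_fiberwise (f := k) (s := X)
      (t := Fintype.piFinset (fun _ : ι => Finset.range (K + 1))) (by
        intro x hx
        simp only [Finset.mem_coe, Fintype.mem_piFinset, Finset.mem_range]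
        intro i
        have := hk1 x hx i
        omega)
    rw [h1]
    push_cast
    exact le_rfl
  have hfib : ∀ b ∈ Fintype.piFinset (fun _ : ι => Finset.range (K + 1)),
      (((X.filter (fun x => k x = b)).card : ℕ) : ℝ) ≤
        C * Real.exp c' * B ^ ((n : ℝ) - θ + δ) := by
    intro b _
    rcases (X.filter (fun x => k x = b)).eq_empty_or_nonempty with he | ⟨x0, hx0⟩
    · rw [he, Finset.card_empty, Nat.cast_zero]
      positivity
    have hx0X := (Finset.mem_filter.mp hx0).1
    have hkb := (Finset.mem_filter.mp hx0).2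
    have hsum : ∑ j, (b (j, none) + ∑ p, b (j, some p)) = ∑ i, b i := by
      rw [Fintype.sum_prod_type]
      refine Finset.sum_congr rfl fun j _ => by rw [Fintype.sum_option]
    have h1 := hb B K (fun j => b (j, none)) (fun j p => b (j, some p)) hB1 hK1
      (by rw [hsum, ← hkb]; exact hk2 x0 hx0X) (X.filter (fun x => k x = b)) (by
        intro x hx
        obtain ⟨hxX, hkx⟩ := Finset.mem_filter.mp hx
        obtain ⟨hprim, hne, H, hH1, hHB, hHB', hxH, ⟨i0, hxH'⟩, hprox⟩ := hX x hxX
        refine ⟨hprim, fun i => (hxH i).trans hHB', ⟨i0, hHB.trans hxH'⟩, hne, ?_, ?_⟩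
        · intro j
          have h2 := hk3 x hxX (j, none)
          rw [hkx] at h2
          have h3 : (b (j, none) : ℝ) / K ≤
            Real.log (c * B ^ d j / |((MvPolynomial.eval x (F j) : ℤ) : ℝ)|) / Real.log B := h2
          have h4 : (0 : ℝ) < |((MvPolynomial.eval x (F j) : ℤ) : ℝ)| :=
            abs_pos.mpr (by exact_mod_cast hne j)
          rw [le_div_iff₀ hL] at h3
          have h5 := Real.exp_le_exp.mpr h3
          rw [Real.exp_log (by positivity), le_div_iff₀ h4] at h5
          have h6 : B ^ (-((b (j, none) : ℝ) / K)) =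
              (Real.exp ((b (j, none) : ℝ) / K * Real.log B))⁻¹ := by
            rw [Real.rpow_neg hB0.le, Real.rpow_def_of_pos hB0, mul_comm (Real.log B)]
          rw [h6]
          have h7 : 0 < Real.exp ((b (j, none) : ℝ) / K * Real.log B) := Real.exp_pos _
          calc |((MvPolynomial.eval x (F j) : ℤ) : ℝ)| =
                (Real.exp ((b (j, none) : ℝ) / K * Real.log B))⁻¹ *
                  (Real.exp ((b (j, none) : ℝ) / K * Real.log B) *
                    |((MvPolynomial.eval x (F j) : ℤ) : ℝ)|) := by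
                  field_simp
            _ ≤ (Real.exp ((b (j, none) : ℝ) / K * Real.log B))⁻¹ * (c * B ^ d j) :=
              mul_le_mul_of_nonneg_left h5 (by positivity)
            _ = _ := by ring
        · intro p j
          have h2 := hk3 x hxX (j, some p)
          rw [hkx] at h2
          have h3 : (b (j, some p) : ℝ) / K ≤
            (padicValInt p.1 (MvPolynomial.eval x (F j)) : ℝ) * Real.log p.1 / Real.log B := h2
          rw [le_div_iff₀ hL] at h3
          have h5 := Real.exp_le_exp.mpr h3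
          have hp0 : (0 : ℝ) < p.1 := by exact_mod_cast (hSp p.1 p.2).pos
          rw [Real.rpow_def_of_pos hB0, mul_comm (Real.log B)]
          refine h5.trans (le_of_eq ?_)
          rw [Real.exp_nat_mul, Real.exp_log hp0])
    refine h1.trans ?_
    rw [hsum, mul_assoc]
    apply mul_le_mul_of_nonneg_left _ hC
    have h2 := hk4 x0 hx0X
    rw [hkb] at h2
    have h3 : Real.exp c' = B ^ (c' / Real.log B) := by
      rw [Real.rpow_def_of_pos hB0]
      congr 1
      field_simp
    rw [h3, ← Real.rpow_add hB0]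
    apply Real.rpow_le_rpow_of_exponent_le hB1
    linarith
  refine hcard.trans ((Finset.sum_le_sum hfib).trans (le_of_eq ?_))
  rw [Finset.sum_const, Fintype.card_piFinset]
  simp only [Finset.card_range, Finset.prod_const, Finset.card_univ, nsmul_eq_mul]
  push_cast
  ring

end

end Pool.Agent.TH42.NC
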